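import Pool.Agent.Q136.Sinks2

/-!
# Configuration spaces of graphs with sinks need not be aspherical

For the graph with one vertex, which is a sink, and three loops, the unordered configuration space
of two particles has nonzero second homotopy group.
-/

namespace Pool.Agent.Results.MP_c15946_gt.ThreeLoops

open Pool.Agent.Q136.Sinks

theorem result : ∃ (G : Graph) (S : Set (Fin G.m)), G.m = 1 ∧ G.n = 3 ∧ S = Set.univ ∧
    ∃ b : B G S 2, ¬ Subsingleton (HomotopyGroup.Pi 2 (B G S 2) b) :=
  ⟨bouquet, Set.univ, rfl, rfl, rfl, pi2_nontrivial⟩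

end Pool.Agent.Results.MP_c15946_gt.ThreeLoops
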